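import Mathlib
import Pool.Agent.Q176.SepCont

namespace Pool.Agent.Results.MP_8a822d_gt.RosenthalCro

open Set Topology Q176.SepCont

universe u v

/-- **MP_8a822d_gt, Q1 (negated form).** There is a Rosenthal compact `K` which embeds into no
`S_cro(X × Y)` with `X`, `Y` Polish. -/
theorem result : ∃ (K : Type) (_ : TopologicalSpace K), IsRosenthalCompact K ∧
    ∀ (X : Type u) (Y : Type v) [TopologicalSpace X] [TopologicalSpace Y]
      [PolishSpace X] [PolishSpace Y], ¬ ∃ j : K → Scro X Y, IsEmbedding j := by
  refine ⟨AK, inferInstance, AK_isRosenthalCompact, ?_⟩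
  intro X Y _ _ _ _ ⟨j, hj⟩
  exact AK_not_metrizable (cro_compact_metrizable j hj.continuous hj.injective)

end Pool.Agent.Results.MP_8a822d_gt.RosenthalCro
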